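import Pool.Agent.Q120.ME.General

/-!
# The general theorem of project ME in terms of a scale `g` with `mass ~ c * g`
-/

set_option autoImplicit false

namespace Pool.Agent.Q164.LT

open Finset MeasureTheory Filter Pool.Agent.Q120.ET Pool.Agent.Q120.ME
open scoped Topology

/-- The class `δ` at the scale `g`: the relative entropy up to `x` is at most `(δ + o(1)) g x`. -/
def SCls (U : Set ℕ) (p : ℕ → ℝ) (g : ℕ → ℝ) (δ : ℝ) {Ω : Type*} [MeasurableSpace Ω] (μ : Measure Ω) (A : Ω → Set ℕ) : Prop :=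
  IsRandomSet A ∧ ∀ ε : ℝ, 0 < ε → ∀ᶠ x : ℕ in atTop, relEnt p μ A (ind U x) ≤ (δ + ε) * g x

/-- The setting. -/
structure Setting (U : Set ℕ) (p : ℕ → ℝ) (g : ℕ → ℝ) (c : ℝ) : Prop where
  rates : Rates U p
  c_pos : 0 < c
  g_lim : Tendsto g atTop atTop
  mass_lim : Tendsto (fun x : ℕ => mass U p x / g x) atTop (𝓝 c)

variable {U : Set ℕ} {p g : ℕ → ℝ} {c : ℝ}

theorem mass_bounds (S : Setting U p g c) {η : ℝ} (hη : 0 < η) : ∀ᶠ x : ℕ in atTop,
    (1 - η) * (c * g x) ≤ mass U p x ∧ mass U p x ≤ (1 + η) * (c * g x) := by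
  have h1 := S.mass_lim
  have hc := S.c_pos
  filter_upwards [h1.eventually (eventually_gt_nhds (show (1 - η) * c < c by nlinarith)),
    h1.eventually (eventually_lt_nhds (show c < (1 + η) * c by nlinarith)), S.g_lim.eventually_gt_atTop 0] with x h2 h3 h4
  rw [lt_div_iff₀ h4] at h2
  rw [div_lt_iff₀ h4] at h3
  constructor <;> nlinarith

theorem tendsto_iff (S : Setting U p g c) (f : ℕ → ℝ) (l : ℝ) :
    Tendsto (fun x : ℕ => f x / mass U p x) atTop (𝓝 l) ↔ Tendsto (fun x : ℕ => f x / g x) atTop (𝓝 (c * l)) := by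
  have h1 := S.mass_lim
  have hc := S.c_pos
  have h2 : ∀ᶠ x : ℕ in atTop, 0 < mass U p x := S.rates.div.eventually_gt_atTop 0
  have h3 : ∀ᶠ x : ℕ in atTop, 0 < g x := S.g_lim.eventually_gt_atTop 0
  constructor
  · intro h
    refine (h1.mul h).congr' ?_
    filter_upwards [h2, h3] with x h4 h5
    field_simp
  · intro h
    have h4 : Tendsto (fun x : ℕ => f x / g x * (mass U p x / g x)⁻¹) atTop (𝓝 (c * l * c⁻¹)) :=
      h.mul (h1.inv₀ hc.ne')
    rw [show c * l * c⁻¹ = l by field_simp] at h4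
    refine h4.congr' ?_
    filter_upwards [h2, h3] with x h4 h5
    field_simp

theorem cls_iff (S : Setting U p g c) {δ : ℝ} (hδ : 0 ≤ δ) {f : ℕ → ℝ} :
    (∀ ε : ℝ, 0 < ε → ∀ᶠ x : ℕ in atTop, f x ≤ (δ / c + ε) * mass U p x) ↔
      ∀ ε : ℝ, 0 < ε → ∀ᶠ x : ℕ in atTop, f x ≤ (δ + ε) * g x := by
  have hc := S.c_pos
  constructor
  · intro h ε hε
    obtain ⟨ε', hε'⟩ : ∃ ε' : ℝ, ε' = ε / (2 * c) := ⟨_, rfl⟩
    have h1 : 0 < ε' := by
      rw [hε']
      positivity
    obtain ⟨η, hη⟩ : ∃ η : ℝ, η = ε / (2 * (δ + ε)) := ⟨_, rfl⟩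
    have hδε : 0 < δ + ε := by linarith
    have h2 : 0 < η := by
      rw [hη]
      positivity
    filter_upwards [h ε' h1, mass_bounds S h2, S.g_lim.eventually_gt_atTop 0] with x h3 h4 h5
    refine h3.trans ?_
    have h6 : 0 ≤ δ / c + ε' := by positivity
    refine (mul_le_mul_of_nonneg_left h4.2 h6).trans ?_
    have h7 : (δ / c + ε') * ((1 + η) * (c * g x)) = ((δ + ε / 2) * (1 + η)) * g x := by
      rw [hε']
      field_simp
    rw [h7]
    apply mul_le_mul_of_nonneg_right _ h5.le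
    have h8 : (δ + ε / 2) * η ≤ ε / 2 := by
      rw [hη, mul_div_assoc', div_le_iff₀ (by positivity)]
      nlinarith
    linarith
  · intro h ε hε
    obtain ⟨ε', hε'⟩ : ∃ ε' : ℝ, ε' = ε * c / 2 := ⟨_, rfl⟩
    have h1 : 0 < ε' := by
      rw [hε']
      positivity
    have hd : 0 < δ / c + ε := by positivity
    obtain ⟨η, hη⟩ : ∃ η : ℝ, η = ε / 2 / (δ / c + ε) := ⟨_, rfl⟩
    have h2 : 0 < η := by
      rw [hη]
      positivity
    filter_upwards [h ε' h1, mass_bounds S h2, S.g_lim.eventually_gt_atTop 0] with x h3 h4 h5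
    refine h3.trans ?_
    refine le_trans ?_ (mul_le_mul_of_nonneg_left h4.1 hd.le)
    have h7 : (δ / c + ε) * ((1 - η) * (c * g x)) = ((δ / c + ε) - (δ / c + ε) * η) * c * g x := by ring
    rw [h7]
    apply mul_le_mul_of_nonneg_right _ h5.le
    have h8 : (δ / c + ε) * η = ε / 2 := by
      rw [hη]
      field_simp
    rw [h8, hε']
    have h9 : (δ / c + ε - ε / 2) * c = δ + ε * c / 2 := by
      field_simp
      ring
    rw [h9]

theorem scale (S : Setting U p g c) (u : ℝ) : u * Real.log (u / c) - u + c = c * hfun (u / c) := by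
  unfold hfun
  have := S.c_pos
  field_simp

theorem lint_scale (S : Setting U p g c) (ν : Measure ℝ) (δ : ℝ) (hδ : 0 ≤ δ) :
    ∫⁻ u, ENNReal.ofReal (u * Real.log (u / c) - u + c) ∂ν ≤ ENNReal.ofReal δ ↔
      ∫⁻ u, ENNReal.ofReal (u * Real.log u - u + 1) ∂(ν.map (fun u => u / c)) ≤ ENNReal.ofReal (δ / c) := by
  have hc := S.c_pos
  have hmeas : Measurable (fun u : ℝ => ENNReal.ofReal (u * Real.log u - u + 1)) := by
    fun_prop
  rw [lintegral_map hmeas (by fun_prop)]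
  have h1 : (fun u : ℝ => ENNReal.ofReal (u * Real.log (u / c) - u + c)) =
      fun u => ENNReal.ofReal c * ENNReal.ofReal (u / c * Real.log (u / c) - u / c + 1) := by
    funext u
    rw [scale S, ENNReal.ofReal_mul hc.le]
    rfl
  have hmeas2 : Measurable (fun u : ℝ => ENNReal.ofReal (u / c * Real.log (u / c) - u / c + 1)) :=
    hmeas.comp (measurable_id.div_const c)
  rw [h1, lintegral_const_mul _ hmeas2, ENNReal.ofReal_div_of_pos hc,
    ENNReal.le_div_iff_mul_le (Or.inl (by simpa using hc)) (Or.inl ENNReal.ofReal_ne_top), mul_comm]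

theorem laws_iff (S : Setting U p g c) {δ : ℝ} (hδ : 0 ≤ δ) (ν : Measure ℝ) [IsProbabilityMeasure ν] :
    (∃ (Ω : Type) (_ : MeasurableSpace Ω) (μ : Measure Ω) (_ : IsProbabilityMeasure μ) (A : Ω → Set ℕ) (L : Ω → ℝ), SCls U p g δ μ A ∧
      Measurable L ∧ μ.map L = ν ∧ ∀ᵐ ω ∂μ, Tendsto (fun x : ℕ => (cnt U (A ω) x : ℝ) / g x) atTop (𝓝 (L ω))) ↔
    ν (Set.Iio 0) = 0 ∧ ∫⁻ u, ENNReal.ofReal (u * Real.log (u / c) - u + c) ∂ν ≤ ENNReal.ofReal δ := by
  have hc := S.c_pos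
  have hδc : 0 ≤ δ / c := by positivity
  have G := ((general U p S.rates).2 (δ / c) hδc).1 (ν.map (fun u => u / c)) (Measure.isProbabilityMeasure_map (by fun_prop))
  have hpre : (ν.map (fun u => u / c)) (Set.Iio 0) = ν (Set.Iio 0) := by
    rw [Measure.map_apply (by fun_prop) measurableSet_Iio]
    congr 1
    ext u
    simp only [Set.mem_preimage, Set.mem_Iio]
    rw [div_lt_iff₀ hc, zero_mul]
  rw [lint_scale S ν δ hδ, ← hpre, ← G]
  constructor
  · rintro ⟨Ω, m, μ, hμ, A, L, ⟨hA, hcls⟩, hL, hmap, hlim⟩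
    refine ⟨Ω, m, μ, hμ, A, fun ω => L ω / c, ⟨hA, (cls_iff S hδ).2 hcls⟩, hL.div_const _, ?_, ?_⟩
    · rw [← hmap, Measure.map_map (by fun_prop) hL]
      rfl
    · filter_upwards [hlim] with ω hω
      rw [tendsto_iff S, mul_div_cancel₀ _ hc.ne']
      exact hω
  · rintro ⟨Ω, m, μ, hμ, A, L, ⟨hA, hcls⟩, hL, hmap, hlim⟩
    refine ⟨Ω, m, μ, hμ, A, fun ω => c * L ω, ⟨hA, (cls_iff S hδ).1 hcls⟩, hL.const_mul _, ?_, ?_⟩
    · have h2 : μ.map (fun ω => c * L ω) = (μ.map L).map (fun v => c * v) := (Measure.map_map (by fun_prop) hL).symm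
      rw [h2, hmap, Measure.map_map (by fun_prop) (by fun_prop)]
      have h3 : (fun v => c * v) ∘ (fun u => u / c) = id := by
        funext u
        simp only [Function.comp, id]
        field_simp
      rw [h3, Measure.map_id]
    · filter_upwards [hlim] with ω hω
      exact (tendsto_iff S _ _).1 hω

theorem fin_max (S : Setting U p g c) {δ : ℝ} (hδ : 0 ≤ δ) :
    (∀ (Ω : Type) [MeasurableSpace Ω] (μ : Measure Ω) [IsProbabilityMeasure μ] (A : Ω → Set ℕ), SCls U p g δ μ A →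
      μ.real {ω | (A ω ∩ U).Finite} ≤ δ / c) ∧
    ∃ (Ω : Type) (_ : MeasurableSpace Ω) (μ : Measure Ω) (_ : IsProbabilityMeasure μ) (A : Ω → Set ℕ), SCls U p g δ μ A ∧
      μ.real {ω | (A ω ∩ U).Finite} = min 1 (δ / c) := by
  have hc := S.c_pos
  have hδc : 0 ≤ δ / c := by positivity
  obtain ⟨-, G1, Ω, m, μ, hμ, A, hA, hfin⟩ := (general U p S.rates).2 (δ / c) hδc
  exact ⟨fun Ω _ μ _ A hA => G1 Ω μ A ⟨hA.1, (cls_iff S hδ).2 hA.2⟩, Ω, m, μ, hμ, A, ⟨hA.1, (cls_iff S hδ).1 hA.2⟩, hfin⟩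

open Classical in
/-- The convergence condition for a comparison sequence `w`. -/
theorem conv_iff (S : Setting U p g c) {d w : ℕ → ℝ} (hd : ∀ n, 0 ≤ d n) {a b : ℝ} (ha : 0 < a) (hb : 0 < b)
    (hw : ∀ᶠ n : ℕ in atTop, n ∈ U → a * (p n / g n ^ 2) ≤ w n ∧ w n ≤ b * (p n / g n ^ 2)) :
    Conv U p d ↔ Summable (fun n : ℕ => if n ∈ U then w n * d n else 0) := by
  have hc := S.c_pos
  have hmb := mass_bounds S (show (0 : ℝ) < 1 / 2 by norm_num)
  unfold Conv
  have key : ∀ᶠ n : ℕ in atTop, n ∈ U →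
      0 ≤ p n * d n / mass U p n ^ 2 ∧ 0 ≤ w n * d n ∧
      p n * d n / mass U p n ^ 2 ≤ 4 / (c ^ 2 * a) * (w n * d n) ∧
      w n * d n ≤ 9 * c ^ 2 * b / 4 * (p n * d n / mass U p n ^ 2) := by
    filter_upwards [hmb, hw, S.g_lim.eventually_gt_atTop 0] with n h1 h2 h3 hn
    have hp := S.rates.pos n hn
    have hcg : 0 < c * g n := by positivity
    have hm : 0 < mass U p n := by nlinarith [h1.1]
    have h5 := hd n
    have h6 : (1 / 2 * (c * g n)) ^ 2 ≤ mass U p n ^ 2 := by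
      apply pow_le_pow_left₀ (by positivity)
      linarith [h1.1]
    have h7 : mass U p n ^ 2 ≤ (3 / 2 * (c * g n)) ^ 2 := by
      apply pow_le_pow_left₀ hm.le
      linarith [h1.2]
    have hw1 := (h2 hn).1
    have hw2 := (h2 hn).2
    have hpg : 0 < p n / g n ^ 2 := by positivity
    have hwn : 0 < w n := lt_of_lt_of_le (by positivity) hw1
    refine ⟨by positivity, by positivity, ?_, ?_⟩
    · calc p n * d n / mass U p n ^ 2
          ≤ p n * d n / (1 / 2 * (c * g n)) ^ 2 := div_le_div_of_nonneg_left (by positivity) (by positivity) h6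
        _ = 4 / (c ^ 2 * a) * (a * (p n / g n ^ 2) * d n) := by
            field_simp
            ring
        _ ≤ 4 / (c ^ 2 * a) * (w n * d n) := by
            apply mul_le_mul_of_nonneg_left _ (by positivity)
            exact mul_le_mul_of_nonneg_right hw1 h5
    · calc w n * d n ≤ b * (p n / g n ^ 2) * d n := mul_le_mul_of_nonneg_right hw2 h5
        _ = 9 * c ^ 2 * b / 4 * (p n * d n / (3 / 2 * (c * g n)) ^ 2) := by
            field_simp
            ring
        _ ≤ 9 * c ^ 2 * b / 4 * (p n * d n / mass U p n ^ 2) := by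
            apply mul_le_mul_of_nonneg_left _ (by positivity)
            exact div_le_div_of_nonneg_left (by positivity) (by positivity) h7
  constructor
  · intro h
    refine Summable.of_norm_bounded_eventually_nat (h.mul_left (9 * c ^ 2 * b / 4)) ?_
    filter_upwards [key] with n h1
    by_cases hn : n ∈ U
    · rw [if_pos hn, if_pos hn, Real.norm_eq_abs, abs_of_nonneg (h1 hn).2.1]
      exact (h1 hn).2.2.2
    · rw [if_neg hn, if_neg hn, norm_zero, mul_zero]
  · intro h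
    refine Summable.of_norm_bounded_eventually_nat (h.mul_left (4 / (c ^ 2 * a))) ?_
    filter_upwards [key] with n h1
    by_cases hn : n ∈ U
    · rw [if_pos hn, if_pos hn, Real.norm_eq_abs, abs_of_nonneg (h1 hn).1]
      exact (h1 hn).2.2.1
    · rw [if_neg hn, if_neg hn, norm_zero, mul_zero]

theorem law_iff (S : Setting U p g c) {d : ℕ → ℝ} (hm : Monotone d) (hd : ∀ n, 0 ≤ d n) :
    (∀ (Ω : Type) [MeasurableSpace Ω] (μ : Measure Ω) [IsProbabilityMeasure μ] (A : Ω → Set ℕ), IsRandomSet A →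
      (∀ᶠ x : ℕ in atTop, relEnt p μ A (ind U x) ≤ d x) →
        ∀ᵐ ω ∂μ, Tendsto (fun x : ℕ => (cnt U (A ω) x : ℝ) / g x) atTop (𝓝 c)) ↔ Conv U p d := by
  rw [← (general U p S.rates).1 d hm hd]
  have key : ∀ S' : Set ℕ, Tendsto (fun x : ℕ => (cnt U S' x : ℝ) / g x) atTop (𝓝 c) ↔
      Tendsto (fun x : ℕ => (cnt U S' x : ℝ) / mass U p x) atTop (𝓝 1) := by
    intro S'
    rw [tendsto_iff S, mul_one]
  constructor
  · intro h Ω _ μ _ A hA hD
    filter_upwards [h Ω μ A hA hD] with ω hω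
    exact (key _).1 hω
  · intro h Ω _ μ _ A hA hD
    filter_upwards [h Ω μ A hA hD] with ω hω
    exact (key _).2 hω

end Pool.Agent.Q164.LT
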