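import Pool.Agent.Q164.LT.Stm
import Pool.Agent.Q164.LT.Scaled

/-!
# Random sets near the models of Lang and Trotter: assembly
-/

set_option autoImplicit false

namespace Pool.Agent.Q164.LT

open Finset MeasureTheory Filter Pool.Agent.Q120.ET Pool.Agent.Q120.ME
open scoped Topology

theorem cand_eventually {r : ℤ} {N : ℕ} (hN : N ≠ 0) : ∀ᶠ n : ℕ in atTop, (n ∈ cand r N ↔ n.Prime) := by
  filter_upwards [eventually_gt_atTop N, eventually_ge_atTop (r ^ 2).toNat] with n h1 h2
  refine ⟨fun h => h.1, fun h => ⟨h, fun hd => ?_, ?_⟩⟩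
  · exact absurd (Nat.le_of_dvd (Nat.pos_of_ne_zero hN) hd) (by omega)
  · have h3 : r ^ 2 ≤ (n : ℤ) := by
      have := Int.self_le_toNat (r ^ 2)
      have h4 : ((r ^ 2).toNat : ℤ) ≤ n := by exact_mod_cast h2
      linarith
    have h5 : (0 : ℤ) ≤ n := by positivity
    linarith

/-- The scale `√x / log x`. -/
noncomputable def sc (x : ℕ) : ℝ := Real.sqrt x / Real.log x

theorem sc_tendsto : Tendsto sc atTop atTop := by
  have h1 : Tendsto (fun x : ℝ => Real.log x / x ^ (1 / 2 : ℝ)) atTop (𝓝 0) :=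
    (isLittleO_log_rpow_atTop (by norm_num : (0 : ℝ) < 1 / 2)).tendsto_div_nhds_zero
  have h2 : Tendsto (fun x : ℝ => Real.log x / x ^ (1 / 2 : ℝ)) atTop (𝓝[>] 0) := by
    rw [tendsto_nhdsWithin_iff]
    refine ⟨h1, ?_⟩
    filter_upwards [eventually_gt_atTop 1] with x hx
    have := Real.log_pos hx
    exact div_pos this (Real.rpow_pos_of_pos (by linarith) _)
  have h3 := h2.inv_tendsto_nhdsGT_zero
  have h4 := h3.comp tendsto_natCast_atTop_atTop
  refine h4.congr (fun x => ?_)
  simp only [Function.comp, Pi.inv_apply, sc, inv_div, Real.sqrt_eq_rpow]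

theorem q_bounds {r : ℤ} {N : ℕ} {C : ℝ} {q : ℕ → ℝ} (hC : 0 < C) (hq : LTModel r N C q) :
    ∀ᶠ n : ℕ in atTop, n ∈ cand r N → C / 4 / Real.sqrt n ≤ q n ∧ q n ≤ C / Real.sqrt n := by
  filter_upwards [hq.lim (C / 2) (by linarith), eventually_gt_atTop 0] with n h1 h2 hn
  have h3 := abs_le.1 (h1 hn)
  have h4 : 0 < Real.sqrt n := Real.sqrt_pos.2 (by exact_mod_cast h2)
  constructor
  · rw [div_le_iff₀ h4]
    nlinarith [h3.1]
  · rw [le_div_iff₀ h4]
    nlinarith [h3.2]

theorem setting (J : J_MASS) {r : ℤ} {N : ℕ} {C : ℝ} {q : ℕ → ℝ} (hN : N ≠ 0) (hC : 0 < C) (hq : LTModel r N C q) :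
    Setting (cand r N) q sc C := by
  have hm : Tendsto (fun x : ℕ => mass (cand r N) q x / sc x) atTop (𝓝 C) := J r N C q hN hC hq
  refine ⟨⟨hq.pos, hq.lt_one, ?_, ?_⟩, hC, sc_tendsto, hm⟩
  · intro ε hε
    have h1 : Tendsto (fun n : ℕ => C / Real.sqrt n) atTop (𝓝 0) :=
      tendsto_const_nhds.div_atTop (Real.tendsto_sqrt_atTop.comp tendsto_natCast_atTop_atTop)
    filter_upwards [q_bounds hC hq, h1.eventually (eventually_lt_nhds hε)] with n h2 h3 hn
    exact lt_of_le_of_lt (h2 hn).2 h3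
  · have h1 : Tendsto (fun x : ℕ => mass (cand r N) q x / sc x * sc x) atTop atTop :=
      hm.pos_mul_atTop hC sc_tendsto
    refine h1.congr' ?_
    filter_upwards [sc_tendsto.eventually_gt_atTop 0] with x hx
    field_simp

theorem law_iff' (J : J_MASS) {r : ℤ} {N : ℕ} {C : ℝ} {q : ℕ → ℝ} (hN : N ≠ 0) (hC : 0 < C) (hq : LTModel r N C q)
    {d : ℕ → ℝ} (hm : Monotone d) (hd : ∀ n, 0 ≤ d n) :
    (∀ (Ω : Type) [MeasurableSpace Ω] (μ : Measure Ω) [IsProbabilityMeasure μ] (A : Ω → Set ℕ), IsRandomSet A →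
      (∀ᶠ x : ℕ in atTop, relEnt q μ A (ind (cand r N) x) ≤ d x) →
        ∀ᵐ ω ∂μ, Tendsto (fun x : ℕ => (cnt (cand r N) (A ω) x : ℝ) / sc x) atTop (𝓝 C)) ↔
      Summable (fun n : ℕ => if n.Prime then d n * Real.log n ^ 2 / (n * Real.sqrt n) else 0) := by
  classical
  have S := setting J hN hC hq
  rw [law_iff S hm hd, conv_iff S (w := fun n => Real.log n ^ 2 / (n * Real.sqrt n)) hd
    (a := 1 / C) (b := 4 / C) (by positivity) (by positivity)]
  · constructor
    · intro h
      refine (summable_congr_atTop ?_).1 h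
      filter_upwards [cand_eventually (r := r) hN] with n hn
      by_cases hp : n.Prime
      · rw [if_pos hp, if_pos (hn.2 hp)]
        ring
      · rw [if_neg hp, if_neg (fun h => hp (hn.1 h))]
    · intro h
      refine (summable_congr_atTop ?_).2 h
      filter_upwards [cand_eventually (r := r) hN] with n hn
      by_cases hp : n.Prime
      · rw [if_pos hp, if_pos (hn.2 hp)]
        ring
      · rw [if_neg hp, if_neg (fun h => hp (hn.1 h))]
  · filter_upwards [q_bounds hC hq, eventually_gt_atTop 1] with n h1 h2 hn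
    have hn1 : (1 : ℝ) < n := by exact_mod_cast h2
    have hlog : 0 < Real.log n := Real.log_pos hn1
    have hn0 : (0 : ℝ) < n := by linarith
    have hs : 0 < Real.sqrt n := Real.sqrt_pos.2 hn0
    have hss : Real.sqrt n ^ 2 = n := Real.sq_sqrt hn0.le
    have e1 : q n / sc n ^ 2 = q n * (Real.log n ^ 2 / n) := by
      unfold sc
      rw [div_pow, hss]
      field_simp
    rw [e1]
    have hL : 0 < Real.log n ^ 2 / n := by positivity
    constructor
    · calc 1 / C * (q n * (Real.log n ^ 2 / n)) ≤ 1 / C * (C / Real.sqrt n * (Real.log n ^ 2 / n)) := by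
            apply mul_le_mul_of_nonneg_left _ (by positivity)
            exact mul_le_mul_of_nonneg_right (h1 hn).2 hL.le
        _ = Real.log n ^ 2 / (n * Real.sqrt n) := by
            field_simp
    · calc Real.log n ^ 2 / (n * Real.sqrt n) = 4 / C * (C / 4 / Real.sqrt n * (Real.log n ^ 2 / n)) := by
            field_simp
        _ ≤ 4 / C * (q n * (Real.log n ^ 2 / n)) := by
            apply mul_le_mul_of_nonneg_left _ (by positivity)
            exact mul_le_mul_of_nonneg_right (h1 hn).1 hL.le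

end Pool.Agent.Q164.LT
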