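import Pool.Agent.Q164.LT.Main
import Pool.Agent.Q224.LT.MASS

/-!
# The quantities of the theorems on random sets near a model of Lang and Trotter
-/

set_option autoImplicit false

namespace Pool.Agent.Q164.LT

open MeasureTheory Filter Pool.Agent.Q120.ET Pool.Agent.Q120.ME
open scoped Topology

/-- The number of the candidates below `x` in `S`. -/
noncomputable def cntLT (r : ℤ) (N : ℕ) (S : Set ℕ) (x : ℕ) : ℕ := cnt (cand r N) S x

/-- The relative entropy (nats) of the law of the set of the candidates below `x` in `A`, with respect to the model with the probabilities `q`. -/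
noncomputable def entLT (r : ℤ) (N : ℕ) (q : ℕ → ℝ) {Ω : Type*} [MeasurableSpace Ω] (μ : Measure Ω) (A : Ω → Set ℕ) (x : ℕ) : ℝ :=
  relEnt q μ A (ind (cand r N) x)

/-- The class `δ`: a random set with `entLT ≤ (δ + o(1)) √x / log x`. -/
def ClsLT (r : ℤ) (N : ℕ) (q : ℕ → ℝ) (δ : ℝ) {Ω : Type*} [MeasurableSpace Ω] (μ : Measure Ω) (A : Ω → Set ℕ) : Prop :=
  IsRandomSet A ∧ ∀ ε : ℝ, 0 < ε → ∀ᶠ x : ℕ in atTop, entLT r N q μ A x ≤ (δ + ε) * (Real.sqrt x / Real.log x)

theorem tendsto_cntLT (r : ℤ) (N : ℕ) (T : Set ℕ) (l : ℝ) :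
    Tendsto (fun x : ℕ => (cntLT r N T x : ℝ) * Real.log x / Real.sqrt x) atTop (𝓝 l) ↔
      Tendsto (fun x : ℕ => (cnt (cand r N) T x : ℝ) / sc x) atTop (𝓝 l) := by
  refine tendsto_congr (fun x => ?_)
  unfold sc cntLT
  rw [div_div_eq_mul_div]

end Pool.Agent.Q164.LT
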