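import Pool.Agent.Q120.ME.Stm

/-!
# Random models of the primes with a given Frobenius trace

`cand r N` is the set of the candidates for `a_p = r`: the primes `p ∤ N` with `r ^ 2 ≤ 4 p`. A model of Lang and Trotter with the constant `C`
contains each candidate `p` independently with a probability `q p`, where `2 √p q p → C` (this includes the factor of the Sato-Tate density).
-/

set_option autoImplicit false

namespace Pool.Agent.Q164.LT

open Finset MeasureTheory Filter Pool.Agent.Q120.ET Pool.Agent.Q120.ME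
open scoped Topology

/-- The primes `p` that do not divide `N` and satisfy Hasse's condition `r ^ 2 ≤ 4 p`. -/
def cand (r : ℤ) (N : ℕ) : Set ℕ := {p | p.Prime ∧ ¬ p ∣ N ∧ r ^ 2 ≤ 4 * (p : ℤ)}

/-- The probabilities `q p` of a model with the constant `C`: `0 < q p < 1` for the candidates `p` and `2 √p q p → C` along the candidates. -/
structure LTModel (r : ℤ) (N : ℕ) (C : ℝ) (q : ℕ → ℝ) : Prop where
  pos : ∀ p ∈ cand r N, 0 < q p
  lt_one : ∀ p ∈ cand r N, q p < 1
  lim : ∀ ε : ℝ, 0 < ε → ∀ᶠ p : ℕ in atTop, p ∈ cand r N → |2 * Real.sqrt p * q p - C| ≤ ε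

/-- **Job MASS.** The expected number.
Proof. Let `g n = 1 / (4 √n log n)` (`≥ 0`; `0` for `n ≤ 1` in Lean), `∑ g = ∞` as `log n ≤ 2 √n` gives `g n ≥ 1 / (8 n)`.
(a) `G n = √n / (2 log n)` satisfies `G (n + 1) - G n ~ g n`: it is `(√(n+1) - √n) / (2 log (n+1)) + √n / 2 * (1 / log (n+1) - 1 / log n)`, the second term is at most
`1 / (2 √n log n log (n+1)) = o(g n)`. Hence (`Asymptotics.IsLittleO.sum_range`) `∑_{n < x} g n ~ G x`.
(b) Let `P n = #{p < n prime}` (`Nat.primeCounting'`), `P n ~ n / log n` (`pi_tendsto` in `Pool.Agent.Cov.PNT`), `f n = 1 / (2 √n)`. Summation by parts (induction):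
`∑_{n < x, n prime} f n = P x * f x + ∑_{n < x} P (n + 1) * (f n - f (n + 1))` (the term `n = 0` of the last sum is `0` as `P 1 = 0`), and
`P (n + 1) (f n - f (n + 1)) ~ g n`. So by (a) `∑_{p < x} f p * log x / √x → 1 / 2 + 1 / 2`.
(c) `q p - C f p = o (f p)` along the candidates, and all large primes are candidates (`N ≠ 0`): `mass - C ∑_{p < x} f p = o (∑_{p < x} f p)` (again `IsLittleO.sum_range`,
for the sequences that vanish at the nonprimes). -/
def J_MASS : Prop := ∀ (r : ℤ) (N : ℕ) (C : ℝ) (q : ℕ → ℝ), N ≠ 0 → 0 < C → LTModel r N C q →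
  Tendsto (fun x : ℕ => mass (cand r N) q x / (Real.sqrt x / Real.log x)) atTop (𝓝 C)

end Pool.Agent.Q164.LT
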